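import Pool.Agent.Q272.SA.Main

/-!
# Best approximations of an algebraic arrangement with vectors off the sails

The arrangement of the two lines `5 x² - 25 x y + 31 y² = 0`, of slopes `(2 + φ) / (5 + 2 φ)` and its
conjugate (`φ` the golden ratio), is algebraic: they are the eigenlines of the matrix with rows
`13, -31` and `5, -12`.  For at least one twentieth of the sizes `N ≤ X`, for every `X ≥ 10000`, each
best approximation of size at most `N` has a primitive vector which is not on the geometric continued
fraction of the arrangement.  In fact this is so for all `N` with `5.43 φ ^ K ≤ N ≤ 5.95 φ ^ K`,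
`K ≥ 12`.

The primitive vectors on the sails are those of norm `± 1`.  For these `N` the arrangements with both
vectors on the sails have discrepancy at least `9.5 / (√5 φ ^ (2 K))`, but an arrangement with
vectors of norm `± 11` and `± 1` has discrepancy at most `9 / (√5 φ ^ (2 K))`.
-/

set_option autoImplicit false

open Q272.SA

namespace Pool.Agent.Results.MP_b5c594_nt.OffTheSails

open Classical in
theorem result :
    (∀ p : ℝ × ℝ, lin e₁ p * lin e₂ p = 5 * p.1 ^ 2 - 25 * (p.1 * p.2) + 31 * p.2 ^ 2) ∧
    Algebraic e₁ e₂ ∧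
    (∀ K N : ℕ, 12 ≤ K → 5.43 * Real.goldenRatio ^ K ≤ N → (N : ℝ) ≤ 5.95 * Real.goldenRatio ^ K →
      Exceptional e₁ e₂ N) ∧
    ∀ X : ℕ, 10000 ≤ X →
      (X : ℝ) / 20 ≤ ((Finset.Icc 1 X).filter (fun N => Exceptional e₁ e₂ N)).card := by
  refine ⟨?_, algebraic, exceptional, density⟩
  intro p
  rw [lin_e₁, lin_e₂]
  have h1 := phi_mul_psi
  have h2 : Real.goldenRatio + Real.goldenConj = 1 := Real.goldenRatio_add_goldenConj
  linear_combination ((2 * p.2 - p.1) ^ 2) * h1 + ((5 * p.2 - 2 * p.1) * (2 * p.2 - p.1)) * h2

end Pool.Agent.Results.MP_b5c594_nt.OffTheSails
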